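import Pool.Agent.PVD.StmtsL

/-!
# Squad PVD, row L_EXK: expansion of the support numbers 0 and 1 of `K`
-/

set_option autoImplicit false
open MeasureTheory

namespace Pool.Agent.PVD.L.H39

/-- row L_EXK -/
theorem exk (xlg : XlgStmt) (akx : AkxStmt) : ExkStmt := by
  intro e he0 he1
  refine ⟨3 / e, ?_, ?_⟩
  · rw [le_div_iff₀ he0]
    linarith
  intro q y hq0 hqT hy0 hy1
  have hq1 : q < 1 := by
    by_contra h
    push Not at h
    have h1 : Real.log (1 / q) ≤ 0 := by
      apply Real.log_nonpos
      · positivity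
      · rw [div_le_one hq0]
        exact h
    have h2 : TT q ≤ 0 := mul_nonpos_of_nonneg_of_nonpos hq0.le h1
    linarith
  have hy : 0 < y := by linarith
  have hadm := bas_adm he0 he1 hy0 hy1
  have hm1 : 1 ≤ y / e := hadm.m1
  have hm0 : 0 < y / e := by linarith
  have hX := xlg e (y / e) q _ hadm hq0 hq1
  have hY := akx e (y / e) q _ hadm hq0 hq1
  have e0 : Hm e (muK e q y) 0 =
      ∫ t in (0:ℝ)..1, (1 - t) / (fm e (bas e y) t + q * (1 - t)) := by
    unfold Hm
    refine intervalIntegral.integral_congr fun t _ => ?_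
    change cl e 0 t / fm e (muK e q y) t = _
    rw [cl_zero, fm_muK]
  have e1 : Hm e (muK e q y) 1 =
      ∫ t in (0:ℝ)..1, t / (fm e (bas e y) t + q * (1 - t)) := by
    unfold Hm
    refine intervalIntegral.integral_congr fun t _ => ?_
    change cl e 1 t / fm e (muK e q y) t = _
    rw [cl_one, fm_muK]
  have e2 : aa e y = ∫ t in (0:ℝ)..1, t / fm e (bas e y) t := by
    unfold aa Hm
    refine intervalIntegral.integral_congr fun t _ => ?_
    change cl e 1 t / fm e (bas e y) t = _
    rw [cl_one]
  rw [← e0] at hX hY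
  rw [← e1, ← e2] at hY
  set X := Hm e (muK e q y) 0
  set Y := Hm e (muK e q y) 1
  set a := aa e y
  set m := y / e with hm
  have hme : m ≤ 1 / e := by
    rw [hm, div_le_div_iff_of_pos_right he0]
    exact hy1
  have hlog : Real.log (m + 1) ≤ m := by
    have := Real.log_le_sub_one_of_pos (show 0 < m + 1 by linarith)
    linarith
  have hey : e / y = 1 / m := by
    rw [hm, one_div_div]
  have hX' : |X - Real.log (1 / q) / m| ≤ 2 / e := by
    have : (2 : ℝ) / e = 1 / e + 1 / e := by ring
    rw [this]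
    linarith
  have h1 : q * X - TT q * (e / y) = q * (X - Real.log (1 / q) / m) := by
    rw [hey]
    unfold TT
    ring
  have h2 : |q * X - TT q * (e / y)| ≤ 2 / e * q := by
    rw [h1, abs_mul, abs_of_pos hq0, mul_comm]
    exact mul_le_mul_of_nonneg_right hX' hq0.le
  have hpos : 0 < q / e := by positivity
  have e3 : (3 : ℝ) / e * q = 2 / e * q + q / e := by ring
  refine ⟨by rw [e3]; linarith, ?_⟩
  have h3 : Y - (a - TT q * (e / y) ^ 2) =
      (Y - a + q / m * X) - 1 / m * (q * X - TT q * (e / y)) := by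
    rw [hey]
    ring
  have h4 : |1 / m * (q * X - TT q * (e / y))| ≤ 2 / e * q := by
    rw [abs_mul, abs_of_pos (show 0 < 1 / m by positivity)]
    have h5 : 1 / m ≤ 1 := by
      rw [div_le_one hm0]
      exact hm1
    calc 1 / m * |q * X - TT q * (e / y)| ≤ 1 * |q * X - TT q * (e / y)| :=
          mul_le_mul_of_nonneg_right h5 (abs_nonneg _)
      _ ≤ 2 / e * q := by rw [one_mul]; exact h2
  rw [h3, e3]
  have h6 := abs_sub (Y - a + q / m * X) (1 / m * (q * X - TT q * (e / y)))
  linarith

end Pool.Agent.PVD.L.H39
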